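import Pool.Agent.Lib.MP_4662c0_co.Sound

set_option autoImplicit false

/-! The polygon and the constants of the certificate. -/

namespace Pool.Agent.Lib.MP_4662c0_co.A

def sides : List (ℤ × ℤ × ℤ) := [(25535, -20535, 5791), (27250, 18198, 6547), (-9465, 31371, 5709), (-27214, -18253, 5178), (-18000, -27382, 4219), (-1510, -32733, 4401)]

def deps : List Dp := [⟨Int.ofNat (nat_lit 25535), Int.negSucc (nat_lit 20534), Int.ofNat (nat_lit 1026495039), Int.negSucc (nat_lit 9464), Int.ofNat (nat_lit 31371), Int.ofNat (nat_lit 1024929845), Int.negSucc (nat_lit 27213), Int.negSucc (nat_lit 18252), Int.ofNat (nat_lit 606694710), Int.ofNat (nat_lit 14937222464334)⟩,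
  ⟨Int.ofNat (nat_lit 25535), Int.negSucc (nat_lit 20534), Int.ofNat (nat_lit 823848630), Int.negSucc (nat_lit 9464), Int.ofNat (nat_lit 31371), Int.ofNat (nat_lit 1068829370), Int.negSucc (nat_lit 17999), Int.negSucc (nat_lit 27381), Int.ofNat (nat_lit 606694710), Int.ofNat (nat_lit 13432499271150)⟩,
  ⟨Int.ofNat (nat_lit 25535), Int.negSucc (nat_lit 20534), Int.ofNat (nat_lit 357188055), Int.negSucc (nat_lit 9464), Int.ofNat (nat_lit 31371), Int.ofNat (nat_lit 866845005), Int.negSucc (nat_lit 1509), Int.negSucc (nat_lit 32732), Int.ofNat (nat_lit 606694710), Int.ofNat (nat_lit 9687357578760)⟩,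
  ⟨Int.ofNat (nat_lit 27250), Int.ofNat (nat_lit 18198), Int.ofNat (nat_lit 1026495039), Int.negSucc (nat_lit 9464), Int.ofNat (nat_lit 31371), Int.ofNat (nat_lit 2153878), Int.negSucc (nat_lit 27213), Int.negSucc (nat_lit 18252), Int.ofNat (nat_lit 1027103820), Int.ofNat (nat_lit 12051103089795)⟩,
  ⟨Int.ofNat (nat_lit 27250), Int.ofNat (nat_lit 18198), Int.ofNat (nat_lit 823848630), Int.negSucc (nat_lit 9464), Int.ofNat (nat_lit 31371), Int.ofNat (nat_lit 418595500), Int.negSucc (nat_lit 17999), Int.negSucc (nat_lit 27381), Int.ofNat (nat_lit 1027103820), Int.ofNat (nat_lit 12116849706690)⟩,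
  ⟨Int.ofNat (nat_lit 27250), Int.ofNat (nat_lit 18198), Int.ofNat (nat_lit 357188055), Int.negSucc (nat_lit 9464), Int.ofNat (nat_lit 31371), Int.ofNat (nat_lit 864495270), Int.negSucc (nat_lit 1509), Int.negSucc (nat_lit 32732), Int.ofNat (nat_lit 1027103820), Int.ofNat (nat_lit 11794197604335)⟩]

noncomputable def av0 : List (List Pe) := [symC (deps.getD 1 d0) (rotP false 45321258) (-1) (-1)]

noncomputable def run (ops : List Op) (t : Tr) : Bool :=
  go (nat_lit 4400764792933) (nat_lit 19203625196837560178631) (nat_lit 309485009821346482938343429)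
    (nat_lit 95780971304118929003193170173498195514421946747478041) (nat_lit 147573954321727220497) (nat_lit 4951760215259502142715592704)
    (Int.ofNat (nat_lit 17592186056761)) false deps av0 ops t

abbrev D (ops : List Op) : Prop := Dead (Int.ofNat (nat_lit 17592186056761)) false deps av0 ops

theorem sound (ops : List Op) (t : Tr) (h : run ops t = true) : D ops :=
  go_sound (by norm_num) ops t h

end Pool.Agent.Lib.MP_4662c0_co.A
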