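import Pool.Agent.Lib.MP_4662c0_co.A.Top
import Pool.Agent.Lib.MP_4662c0_co.Poly

set_option autoImplicit false

/-! The polygon covers every closed curve of length one and has small area. -/

namespace Pool.Agent.Lib.MP_4662c0_co.A

open Set MeasureTheory

theorem fits {γ : ℝ → ℂ} (h : Worm γ) : Fits (poly sides) false γ :=
  cover (deps.getD 1 d0) (rotP false 45321258) (by decide) (by decide +kernel) (by decide +kernel)
    (by
      intro c hc
      simp only [av0, List.mem_cons, List.not_mem_nil, or_false] at hc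
      rcases hc with rfl
      · exact ⟨(-1, -1), by decide, rfl⟩
      ) top h

def P0 : Set ℂ :=
  {z : ℂ | (-88881805 / 342165013 : ℝ) ≤ z.re ∧ z.re ≤ (-64774589 / 416619748 : ℝ) ∧ (-27214 / 18253 : ℝ) * z.re + (-5178 / 18253 : ℝ) ≤ z.im ∧
      z.im ≤ (3155 / 10457 : ℝ) * z.re + (1903 / 10457 : ℝ)}

def P1 : Set ℂ :=
  {z : ℂ | (-64774589 / 416619748 : ℝ) ≤ z.re ∧ z.re ≤ (-3518469 / 109569436 : ℝ) ∧ (-9000 / 13691 : ℝ) * z.re + (-4219 / 27382 : ℝ) ≤ z.im ∧
      z.im ≤ (3155 / 10457 : ℝ) * z.re + (1903 / 10457 : ℝ)}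

def P2 : Set ℂ :=
  {z : ℂ | (-3518469 / 109569436 : ℝ) ≤ z.re ∧ z.re ≤ (6766237 / 68473588 : ℝ) ∧ (-1510 / 32733 : ℝ) * z.re + (-489 / 3637 : ℝ) ≤ z.im ∧
      z.im ≤ (3155 / 10457 : ℝ) * z.re + (1903 / 10457 : ℝ)}

def P3 : Set ℂ :=
  {z : ℂ | (6766237 / 68473588 : ℝ) ≤ z.re ∧ z.re ≤ (33060756 / 288948335 : ℝ) ∧ (-1510 / 32733 : ℝ) * z.re + (-489 / 3637 : ℝ) ≤ z.im ∧
      z.im ≤ (-13625 / 9099 : ℝ) * z.re + (6547 / 18198 : ℝ)}

def P4 : Set ℂ :=
  {z : ℂ | (33060756 / 288948335 : ℝ) ≤ z.re ∧ z.re ≤ (79942421 / 341421560 : ℝ) ∧ (5107 / 4107 : ℝ) * z.re + (-5791 / 20535 : ℝ) ≤ z.im ∧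
      z.im ≤ (-13625 / 9099 : ℝ) * z.re + (6547 / 18198 : ℝ)}

theorem sub : poly sides ⊆ P0 ∪ P1 ∪ P2 ∪ P3 ∪ P4 := by
  intro z hz
  have h0 := hz (25535, -20535, 5791) (by decide)
  have h1 := hz (27250, 18198, 6547) (by decide)
  have h2 := hz (-9465, 31371, 5709) (by decide)
  have h3 := hz (-27214, -18253, 5178) (by decide)
  have h4 := hz (-18000, -27382, 4219) (by decide)
  have h5 := hz (-1510, -32733, 4401) (by decide)
  push_cast at h0 h1 h2 h3 h4 h5
  rcases le_total z.re (-64774589 / 416619748 : ℝ) with g0 | g0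
  · exact Or.inl (Or.inl (Or.inl (Or.inl (⟨by linarith, by linarith, by linarith, by linarith⟩))))
  rcases le_total z.re (-3518469 / 109569436 : ℝ) with g1 | g1
  · exact Or.inl (Or.inl (Or.inl (Or.inr ⟨by linarith, by linarith, by linarith, by linarith⟩)))
  rcases le_total z.re (6766237 / 68473588 : ℝ) with g2 | g2
  · exact Or.inl (Or.inl (Or.inr ⟨by linarith, by linarith, by linarith, by linarith⟩))
  rcases le_total z.re (33060756 / 288948335 : ℝ) with g3 | g3
  · exact Or.inl (Or.inr ⟨by linarith, by linarith, by linarith, by linarith⟩)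
  exact Or.inr ⟨by linarith, by linarith, by linarith, by linarith⟩

theorem area : volume (poly sides) ≤ ENNReal.ofReal 0.108 := by
  have a0 : volume P0 = _ := vol_trap (by norm_num) (by norm_num) (by norm_num)
  have a1 : volume P1 = _ := vol_trap (by norm_num) (by norm_num) (by norm_num)
  have a2 : volume P2 = _ := vol_trap (by norm_num) (by norm_num) (by norm_num)
  have a3 : volume P3 = _ := vol_trap (by norm_num) (by norm_num) (by norm_num)
  have a4 : volume P4 = _ := vol_trap (by norm_num) (by norm_num) (by norm_num)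
  refine (measure_mono sub).trans (le_trans ((measure_union_le _ _).trans (add_le_add ((measure_union_le _ _).trans (add_le_add ((measure_union_le _ _).trans (add_le_add ((measure_union_le _ _).trans (add_le_add (le_rfl) le_rfl)) le_rfl)) le_rfl)) le_rfl)) ?_)
  rw [a0, a1, a2, a3, a4]
  rw [← ENNReal.ofReal_add (by norm_num) (by norm_num), ← ENNReal.ofReal_add (by norm_num) (by norm_num), ← ENNReal.ofReal_add (by norm_num) (by norm_num), ← ENNReal.ofReal_add (by norm_num) (by norm_num)]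
  exact ENNReal.ofReal_le_ofReal (by norm_num)

end Pool.Agent.Lib.MP_4662c0_co.A
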