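import Pool.Agent.Lib.MP_4662c0_co.A.C0
import Pool.Agent.Lib.MP_4662c0_co.A.C1
import Pool.Agent.Lib.MP_4662c0_co.A.C2
import Pool.Agent.Lib.MP_4662c0_co.A.C3
import Pool.Agent.Lib.MP_4662c0_co.A.C4
import Pool.Agent.Lib.MP_4662c0_co.A.C5
import Pool.Agent.Lib.MP_4662c0_co.A.C6
import Pool.Agent.Lib.MP_4662c0_co.A.C7
import Pool.Agent.Lib.MP_4662c0_co.A.C8
import Pool.Agent.Lib.MP_4662c0_co.A.C9
import Pool.Agent.Lib.MP_4662c0_co.A.C10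
import Pool.Agent.Lib.MP_4662c0_co.A.C11
import Pool.Agent.Lib.MP_4662c0_co.A.C12
import Pool.Agent.Lib.MP_4662c0_co.A.C13
import Pool.Agent.Lib.MP_4662c0_co.A.C14
import Pool.Agent.Lib.MP_4662c0_co.A.C15
import Pool.Agent.Lib.MP_4662c0_co.A.C16
import Pool.Agent.Lib.MP_4662c0_co.A.C17
import Pool.Agent.Lib.MP_4662c0_co.A.C18

set_option autoImplicit false
set_option maxRecDepth 100000

namespace Pool.Agent.Lib.MP_4662c0_co.A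

theorem top : D [] :=
 (Dead.rt 45321258 (Dead.br 2 (Dead.ct 89123858 (Dead.ct 79138543 (Dead.us 0 (Dead.ct 95250614 (Dead.ct 72650695 (Dead.ct 93907360 (Dead.ct 84397494 (Dead.ct 92433022 (Dead.rt 53751468 (Dead.br 4 (Dead.ct 87067868 (Dead.ct 99869558 (Dead.ct 70332396 (Dead.rt 35341604 (Dead.br 5 t0
 t1)))))
 (Dead.br 4 (Dead.ct 99926867 (Dead.rt 34628611 (Dead.br 5 (Dead.ct 86600966 (Dead.rt 35030192 (Dead.br 2 (Dead.rt 90033071 (Dead.br 4 t2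
 (Dead.br 1 t3
 t4)))
 (Dead.br 4 (Dead.rt 88550478 (Dead.br 4 t5
 (Dead.br 4 (Dead.ct 90835791 (Dead.rt 99656674 (Dead.br 5 t6
 t7)))
 t8)))
 t9))))
 (Dead.br 4 t10
 t11))))
 (Dead.br 1 t12
 (Dead.br 1 (Dead.ct 85871939 (Dead.rt 35357996 (Dead.br 5 (Dead.rt 99820433 (Dead.br 5 (Dead.rt 76853071 (Dead.br 5 (Dead.us 1 (Dead.rt 94046602 (Dead.br 2 t13
 t14)))
 t15))
 t16))
 (Dead.br 4 t17
 (Dead.br 2 (Dead.rt 76853071 (Dead.br 4 t18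
 t19))
 t20)))))
 t21)))))))))))))
 (Dead.br 4 (Dead.ct 93186577 (Dead.rt 34186006 (Dead.br 5 (Dead.ct 77762347 (Dead.ct 99926867 (Dead.rt 90590062 (Dead.br 5 (Dead.us 1 (Dead.ct 86117679 (Dead.ct 97142563 (Dead.ct 89779147 (Dead.rt 53956279 (Dead.br 4 (Dead.rt 35210486 (Dead.br 5 t22
 t23))
 (Dead.br 4 (Dead.ct 98436539 (Dead.ct 95094996 (Dead.rt 94046601 (Dead.br 5 (Dead.ct 81825376 (Dead.rt 70356972 (Dead.br 5 (Dead.rt 80260791 (Dead.br 5 t24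
 t25))
 t26)))
 t27))))
 (Dead.br 1 t28
 (Dead.br 1 (Dead.ct 98641272 (Dead.ct 95414424 (Dead.rt 70184942 (Dead.br 5 (Dead.rt 79458016 (Dead.br 5 t29
 t30))
 t31))))
 t32)))))))))
 (Dead.br 0 t33
 (Dead.br 0 (Dead.ct 85634391 (Dead.ct 70619113 (Dead.ct 82603568 (Dead.rt 47115480 (Dead.br 2 t34
 (Dead.br 4 (Dead.ct 99280010 (Dead.rt 100606182 (Dead.br 4 (Dead.ct 88902698 (Dead.rt 49900987 (Dead.br 5 (Dead.ct 88001669 (Dead.rt 55824144 (Dead.br 5 t35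
 t36)))
 t37)))
 (Dead.br 4 t38
 t39))))
 t40))))))
 (Dead.br 0 (Dead.ct 86117679 (Dead.ct 91245340 (Dead.rt 54865637 (Dead.br 1 t41
 (Dead.br 4 (Dead.us 3 (Dead.ct 88902698 (Dead.rt 81563248 (Dead.br 5 (Dead.ct 81292927 (Dead.rt 94046601 (Dead.br 5 t42
 t43)))
 t44))))
 (Dead.br 3 (Dead.ct 81825376 (Dead.ct 97011523 (Dead.ct 88681537 (Dead.ct 80490155 (Dead.rt 37341024 (Dead.br 5 (Dead.rt 69709811 (Dead.br 5 (Dead.ct 97994303 (Dead.ct 71782359 (Dead.rt 100516226 (Dead.br 5 t45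
 t46))))
 t47))
 t48))))))
 t49))))))
 (Dead.br 1 (Dead.us 5 (Dead.ct 97011523 (Dead.ct 88902698 (Dead.rt 37267280 (Dead.br 4 (Dead.ct 99361896 (Dead.ct 90213274 (Dead.rt 47787283 (Dead.br 5 (Dead.ct 85388650 (Dead.rt 99132615 (Dead.br 5 t50
 t51)))
 t52))))
 (Dead.br 4 (Dead.ct 91245340 (Dead.ct 98739542 (Dead.rt 69758962 (Dead.br 5 (Dead.rt 78696195 (Dead.br 5 (Dead.rt 80793243 (Dead.br 5 (Dead.rt 74952590 (Dead.br 4 t53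
 t54))
 t55))
 t56))
 (Dead.br 2 t57
 (Dead.br 3 t58
 t59))))))
 (Dead.br 1 t60
 t61)))))))
 t62))))))))
 (Dead.br 4 (Dead.ct 76926796 (Dead.ct 86600966 (Dead.rt 57233225 (Dead.br 4 (Dead.us 2 (Dead.ct 81555056 (Dead.rt 99910493 (Dead.br 4 t63
 (Dead.br 4 (Dead.ct 72363981 (Dead.ct 97879648 (Dead.rt 52325980 (Dead.br 2 t64
 (Dead.br 3 t65
 t66)))))
 t67)))))
 (Dead.br 1 t68
 (Dead.br 3 (Dead.us 4 (Dead.ct 97011523 (Dead.ct 70619113 (Dead.ct 89992115 (Dead.rt 99787682 (Dead.br 5 (Dead.rt 36849385 (Dead.br 5 (Dead.ct 91450115 (Dead.rt 49548705 (Dead.br 2 t69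
 (Dead.br 4 t70
 (Dead.br 1 t71
 t72)))))
 t73))
 t74))))))
 (Dead.br 0 t75
 (Dead.br 0 (Dead.ct 97519298 (Dead.us 6 (Dead.rt 100147915 (Dead.br 5 t76
 t77))))
 t78))))))))
 (Dead.br 3 t79
 (Dead.br 0 (Dead.ct 98739542 (Dead.ct 96167935 (Dead.ct 70914021 (Dead.rt 80408240 (Dead.br 5 t80
 t81)))))
 (Dead.br 1 (Dead.ct 99198125 (Dead.ct 76083050 (Dead.ct 71782359 (Dead.rt 52325980 (Dead.br 4 (Dead.ct 100295260 (Dead.rt 89598943 (Dead.br 5 t82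
 (Dead.br 3 t83
 (Dead.br 3 t84
 (Dead.br 2 t85
 t86))))))
 (Dead.br 4 (Dead.us 6 (Dead.rt 89385974 (Dead.br 3 t87
 (Dead.br 3 (Dead.rt 77942564 (Dead.br 5 (Dead.ct 90213274 (Dead.ct 100409842 (Dead.rt 83029525 (Dead.br 5 t88
 t89))))
 t90))
 (Dead.br 1 t91
 (Dead.br 1 t92
 (Dead.br 1 (Dead.ct 89123858 (Dead.ct 97011523 (Dead.rt 94046601 (Dead.br 4 t93
 (Dead.br 4 t94
 t95)))))
 t96)))))))
 (Dead.br 3 t97
 (Dead.br 0 t98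
 (Dead.br 0 (Dead.ct 97879648 (Dead.ct 82087505 (Dead.ct 90835791 (Dead.rt 100000551 (Dead.br 2 t99
 (Dead.br 4 (Dead.ct 95873085 (Dead.rt 82021972 (Dead.br 5 t100
 t101)))
 t102))))))
 (Dead.br 0 (Dead.rt 71479260 (Dead.br 0 t103
 (Dead.br 4 (Dead.ct 98223613 (Dead.rt 100565311 (Dead.br 5 t104
 t105)))
 (Dead.br 0 t106
 t107))))
 t108))))))))))
 (Dead.br 0 (Dead.ct 96872290 (Dead.ct 82603568 (Dead.rt 49900987 (Dead.br 5 (Dead.ct 100336185 (Dead.rt 79335142 (Dead.br 1 t109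
 (Dead.br 4 (Dead.rt 100622536 (Dead.br 5 (Dead.us 1 (Dead.rt 51875392 (Dead.br 5 (Dead.rt 80203451 (Dead.br 5 (Dead.rt 87395518 (Dead.br 5 t110
 t111))
 t112))
 t113)))
 t114))
 t115))))
 (Dead.br 3 t116
 (Dead.br 3 (Dead.ct 100156102 (Dead.rt 89877440 (Dead.br 3 t117
 (Dead.br 3 t118
 (Dead.br 3 t119
 t120)))))
 (Dead.br 2 t121
 t122)))))))
 t123))))))))
 (Dead.br 2 (Dead.ct 99869558 (Dead.ct 100450767 (Dead.rt 86846704 (Dead.br 3 (Dead.rt 36365928 (Dead.br 0 t124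
 (Dead.br 0 t125
 (Dead.br 0 (Dead.rt 86035765 (Dead.br 0 t126
 (Dead.br 2 (Dead.rt 85757260 (Dead.br 0 t127
 (Dead.br 2 t128
 t129)))
 t130)))
 (Dead.br 0 t131
 (Dead.br 1 (Dead.rt 38225955 (Dead.br 5 (Dead.rt 77369147 (Dead.br 2 (Dead.rt 39094477 (Dead.br 5 t132
 t133))
 t134))
 t135))
 t136))))))
 (Dead.br 3 (Dead.us 3 (Dead.ct 95094996 (Dead.rt 37283667 (Dead.br 5 (Dead.rt 75558779 (Dead.br 2 (Dead.rt 38643831 (Dead.br 5 (Dead.rt 39774534 (Dead.br 3 t137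
 (Dead.br 4 (Dead.rt 77958947 (Dead.br 2 t138
 t139))
 t140)))
 t141))
 t142))
 (Dead.br 4 t143
 (Dead.br 2 (Dead.rt 42797830 (Dead.br 3 t144
 t145))
 t146))))))
 (Dead.br 0 (Dead.rt 44469198 (Dead.br 3 (Dead.rt 43666289 (Dead.br 3 (Dead.rt 42871567 (Dead.br 3 (Dead.rt 42060452 (Dead.br 3 (Dead.rt 41298488 (Dead.br 3 (Dead.rt 39946595 (Dead.br 0 t147
 (Dead.br 2 t148
 (Dead.br 3 (Dead.rt 77139780 (Dead.br 5 t149
 (Dead.br 2 (Dead.rt 78630662 (Dead.br 2 (Dead.rt 80113343 (Dead.br 2 t150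
 t151))
 t152))
 t153)))
 t154))))
 (Dead.br 0 t155
 (Dead.br 2 (Dead.ct 100557120 (Dead.rt 77213505 (Dead.br 2 (Dead.ct 100630706 (Dead.rt 84258240 (Dead.br 0 t156
 t157)))
 t158)))
 t159))))
 (Dead.br 0 t160
 (Dead.br 2 (Dead.ct 100557120 (Dead.rt 77295422 (Dead.br 2 (Dead.ct 100630706 (Dead.rt 41011726 (Dead.br 3 t161
 (Dead.br 3 (Dead.rt 84454833 (Dead.br 0 t162
 t163))
 t164))))
 t165)))
 t166))))
 (Dead.br 0 t167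
 (Dead.br 2 (Dead.rt 76623703 (Dead.br 2 (Dead.rt 40978953 (Dead.br 3 t168
 (Dead.br 3 (Dead.ct 100598009 (Dead.rt 84086221 (Dead.br 0 t169
 t170)))
 t171)))
 (Dead.br 4 (Dead.rt 85454181 (Dead.br 0 t172
 t173))
 t174)))
 t175))))
 (Dead.br 0 t176
 (Dead.br 2 (Dead.rt 75779956 (Dead.br 2 (Dead.rt 76902221 (Dead.br 2 (Dead.rt 39160025 (Dead.br 5 (Dead.rt 79883979 (Dead.br 2 (Dead.rt 47230178 (Dead.br 4 t177
 t178))
 (Dead.br 4 (Dead.us 0 (Dead.rt 41249328 (Dead.br 4 t179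
 t180)))
 t181)))
 (Dead.br 2 (Dead.ct 67989502 (Dead.rt 42502880 (Dead.br 4 (Dead.rt 86183209 (Dead.br 0 (Dead.rt 47713549 (Dead.br 3 t182
 t183))
 t184))
 t185)))
 t186)))
 (Dead.br 4 (Dead.rt 41749113 (Dead.br 3 t187
 (Dead.br 3 (Dead.rt 85159292 (Dead.br 0 t188
 t189))
 t190)))
 t191)))
 (Dead.br 4 (Dead.rt 41216556 (Dead.br 3 t192
 (Dead.br 3 (Dead.rt 84979082 (Dead.br 0 t193
 t194))
 t195)))
 t196)))
 t197))))
 (Dead.br 0 t198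
 (Dead.br 2 (Dead.us 1 (Dead.rt 75542396 (Dead.br 2 (Dead.rt 41191976 (Dead.br 3 t199
 (Dead.br 3 (Dead.rt 84815254 (Dead.br 0 t200
 (Dead.br 0 t201
 (Dead.br 0 (Dead.rt 51031562 (Dead.br 4 t202
 t203))
 t204))))
 t205)))
 (Dead.br 4 (Dead.rt 41577056 (Dead.br 3 t206
 (Dead.br 3 t207
 t208)))
 t209))))
 t210))))
 (Dead.br 1 (Dead.ct 71200736 (Dead.rt 42707706 (Dead.br 0 t211
 (Dead.br 0 t212
 (Dead.br 2 (Dead.us 7 (Dead.ct 69742578 (Dead.rt 42453721 (Dead.br 4 (Dead.rt 40585675 (Dead.br 5 t213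
 t214))
 t215))))
 t216)))))
 (Dead.br 0 (Dead.rt 42232507 (Dead.br 3 (Dead.rt 40233363 (Dead.br 3 t217
 (Dead.br 4 t218
 t219)))
 (Dead.br 0 t220
 (Dead.br 2 (Dead.rt 74477467 (Dead.br 5 t221
 t222))
 t223))))
 (Dead.br 0 (Dead.us 7 (Dead.ct 94767375 (Dead.ct 70914021 (Dead.ct 69160951 (Dead.ct 93907360 (Dead.rt 34841697 (Dead.br 1 (Dead.rt 76885837 (Dead.br 2 t224
 t225))
 (Dead.br 1 (Dead.rt 76246884 (Dead.br 2 t226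
 t227))
 t228))))))))
 t229)))))))))
 (Dead.br 2 (Dead.ct 97764993 (Dead.ct 99926867 (Dead.rt 84856212 (Dead.br 5 (Dead.us 3 (Dead.ct 91450115 (Dead.rt 49180037 (Dead.br 5 (Dead.ct 88231022 (Dead.rt 34013860 (Dead.br 5 (Dead.ct 76083050 (Dead.rt 90057644 (Dead.br 5 (Dead.ct 94931185 (Dead.ct 69455861 (Dead.rt 94202224 (Dead.br 4 t230
 t231))))
 (Dead.br 4 (Dead.rt 36677308 (Dead.br 5 (Dead.ct 100614357 (Dead.rt 93407727 (Dead.br 4 (Dead.rt 71462876 (Dead.br 1 t232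
 t233))
 (Dead.br 4 t234
 t235))))
 (Dead.br 2 t236
 t237)))
 (Dead.br 2 t238
 t239)))))
 (Dead.br 1 (Dead.ct 93907360 (Dead.rt 76828495 (Dead.br 5 (Dead.rt 52096590 (Dead.br 5 (Dead.ct 100483499 (Dead.rt 93178386 (Dead.br 1 t240
 (Dead.br 1 t241
 (Dead.br 0 t242
 (Dead.br 1 (Dead.rt 72249295 (Dead.br 1 t243
 (Dead.br 1 t244
 t245)))
 t246))))))
 t247))
 (Dead.br 4 t248
 (Dead.br 2 (Dead.ct 100336185 (Dead.ct 100581661 (Dead.rt 92097197 (Dead.br 4 (Dead.rt 35693981 (Dead.br 5 (Dead.rt 75992941 (Dead.br 2 (Dead.rt 93776309 (Dead.br 4 (Dead.rt 74919823 (Dead.br 2 (Dead.rt 35153121 (Dead.br 2 t249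
 t250))
 t251))
 t252))
 t253))
 (Dead.br 2 (Dead.rt 94046601 (Dead.br 4 (Dead.rt 75927407 (Dead.br 2 t254
 t255))
 t256))
 t257)))
 t258))))
 t259)))))
 (Dead.br 1 (Dead.us 1 (Dead.rt 90803027 (Dead.br 4 (Dead.rt 36275790 (Dead.br 5 (Dead.rt 72429515 (Dead.br 1 (Dead.rt 93759928 (Dead.br 4 (Dead.ct 100581661 (Dead.rt 35284241 (Dead.br 2 t260
 t261)))
 t262))
 (Dead.br 1 (Dead.rt 93866407 (Dead.br 4 (Dead.ct 100614357 (Dead.rt 46435481 (Dead.br 4 (Dead.rt 37021461 (Dead.br 2 (Dead.us 0 (Dead.rt 37513096 (Dead.br 5 t263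
 t264)))
 (Dead.br 4 (Dead.us 1 (Dead.rt 37652393 (Dead.br 5 t265
 t266)))
 t267)))
 t268)))
 t269))
 t270)))
 (Dead.br 2 (Dead.us 0 (Dead.rt 93399537 (Dead.br 4 (Dead.ct 100614357 (Dead.rt 85929278 (Dead.br 5 t271
 t272)))
 t273)))
 t274)))
 (Dead.br 4 (Dead.ct 96167935 (Dead.rt 77434680 (Dead.br 5 t275
 t276)))
 (Dead.br 2 t277
 (Dead.br 2 t278
 t279))))))
 (Dead.br 2 (Dead.ct 95414424 (Dead.ct 93907360 (Dead.ct 86355226 (Dead.rt 56217377 (Dead.br 2 t280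
 (Dead.br 4 t281
 t282))))))
 t283))))))
 (Dead.br 4 (Dead.ct 73805741 (Dead.rt 82505271 (Dead.br 5 (Dead.rt 91949760 (Dead.br 4 (Dead.rt 34931849 (Dead.br 2 (Dead.rt 42879761 (Dead.br 4 (Dead.rt 52833914 (Dead.br 5 (Dead.rt 94325083 (Dead.br 4 (Dead.rt 96872291 (Dead.br 4 (Dead.rt 51424804 (Dead.br 4 (Dead.rt 87616681 (Dead.br 4 (Dead.rt 74854289 (Dead.br 2 (Dead.rt 41323068 (Dead.br 4 t284
 t285))
 (Dead.br 1 (Dead.rt 86715643 (Dead.br 5 t286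
 t287))
 t288)))
 (Dead.br 3 t289
 (Dead.br 3 t290
 (Dead.br 1 t291
 t292)))))
 (Dead.br 4 (Dead.rt 76615511 (Dead.br 2 (Dead.rt 86355226 (Dead.br 3 t293
 (Dead.br 3 t294
 (Dead.br 1 t295
 (Dead.br 2 t296
 t297)))))
 (Dead.br 4 t298
 t299)))
 t300)))
 (Dead.br 4 (Dead.rt 75263876 (Dead.br 2 (Dead.rt 86093105 (Dead.br 5 (Dead.rt 51293723 (Dead.br 4 (Dead.rt 87289031 (Dead.br 4 t301
 t302))
 (Dead.br 4 (Dead.rt 94718231 (Dead.br 4 (Dead.rt 34095835 (Dead.br 1 t303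
 t304))
 t305))
 t306)))
 (Dead.br 4 (Dead.rt 73109437 (Dead.br 1 t307
 t308))
 (Dead.br 3 t309
 (Dead.br 2 (Dead.rt 40331682 (Dead.br 5 t310
 t311))
 t312)))))
 (Dead.br 1 (Dead.us 0 (Dead.rt 86977764 (Dead.br 4 t313
 (Dead.br 3 t314
 t315))))
 (Dead.br 3 t316
 t317))))
 (Dead.br 2 t318
 t319))))
 (Dead.br 3 t320
 (Dead.br 1 t321
 (Dead.br 2 t322
 t323)))))
 (Dead.br 4 (Dead.ct 68866041 (Dead.rt 86994147 (Dead.br 4 t324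
 (Dead.br 4 (Dead.rt 88960036 (Dead.br 4 t325
 t326))
 (Dead.br 1 t327
 (Dead.br 1 (Dead.rt 89099285 (Dead.br 4 t328
 t329))
 t330))))))
 t331)))
 (Dead.br 3 (Dead.us 0 (Dead.ct 68866041 (Dead.rt 41945748 (Dead.br 3 t332
 t333))))
 (Dead.br 3 (Dead.ct 71495644 (Dead.rt 52334172 (Dead.br 5 (Dead.us 1 (Dead.rt 33669455 (Dead.br 1 t334
 t335)))
 (Dead.br 2 t336
 t337))))
 (Dead.br 1 (Dead.us 2 (Dead.rt 96053271 (Dead.br 4 t338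
 (Dead.br 2 t339
 t340))))
 (Dead.br 1 (Dead.rt 87977095 (Dead.br 5 t341
 t342))
 t343))))))
 (Dead.br 1 (Dead.ct 69742578 (Dead.rt 52751989 (Dead.br 4 (Dead.us 0 (Dead.rt 42633969 (Dead.br 4 (Dead.rt 87059677 (Dead.br 5 t344
 (Dead.br 2 t345
 t346)))
 t347)))
 (Dead.br 4 (Dead.rt 78950136 (Dead.br 2 (Dead.us 1 (Dead.rt 94980328 (Dead.br 4 (Dead.rt 85757261 (Dead.br 5 (Dead.rt 86519052 (Dead.br 5 (Dead.rt 95496327 (Dead.br 4 (Dead.ct 68284413 (Dead.rt 77778731 (Dead.br 2 (Dead.rt 87428283 (Dead.br 5 t348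
 t349))
 t350)))
 t351))
 t352))
 t353))
 t354)))
 (Dead.br 4 (Dead.us 2 (Dead.rt 34472886 (Dead.br 1 (Dead.rt 85765452 (Dead.br 5 (Dead.rt 94366036 (Dead.br 4 (Dead.rt 51326493 (Dead.br 4 t355
 t356))
 t357))
 t358))
 t359)))
 t360)))
 t361))))
 (Dead.br 3 (Dead.us 1 (Dead.rt 95840324 (Dead.br 4 (Dead.rt 97371880 (Dead.br 5 (Dead.rt 36341345 (Dead.br 5 (Dead.rt 72978368 (Dead.br 1 t362
 t363))
 (Dead.br 2 (Dead.rt 73527219 (Dead.br 1 t364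
 t365))
 t366)))
 t367))
 (Dead.br 4 (Dead.ct 100581661 (Dead.rt 73682864 (Dead.br 2 (Dead.rt 92678748 (Dead.br 4 (Dead.rt 46804155 (Dead.br 4 (Dead.rt 93465063 (Dead.br 4 t368
 t369))
 t370))
 t371))
 (Dead.br 1 (Dead.rt 93252103 (Dead.br 4 (Dead.rt 36120097 (Dead.br 5 t372
 t373))
 t374))
 t375))))
 t376))))
 t377))))
 (Dead.br 3 (Dead.ct 69455861 (Dead.rt 34259776 (Dead.br 1 (Dead.rt 88009860 (Dead.br 4 t378
 t379))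
 t380)))
 (Dead.br 1 (Dead.ct 70619113 (Dead.rt 81317502 (Dead.br 5 (Dead.rt 34218793 (Dead.br 1 (Dead.rt 80031427 (Dead.br 2 (Dead.rt 97208082 (Dead.br 4 (Dead.rt 50892289 (Dead.br 4 (Dead.ct 68866041 (Dead.rt 51850815 (Dead.br 4 (Dead.rt 78409488 (Dead.br 2 t381
 t382))
 t383)))
 t384))
 t385))
 (Dead.br 4 (Dead.rt 51105295 (Dead.br 4 (Dead.rt 52072012 (Dead.br 4 (Dead.ct 68284413 (Dead.rt 97019713 (Dead.br 4 (Dead.rt 52801144 (Dead.br 4 t386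
 t387))
 t388)))
 t389))
 t390))
 t391)))
 (Dead.br 3 t392
 t393)))
 (Dead.br 2 (Dead.us 2 (Dead.rt 55381756 (Dead.br 5 (Dead.us 0 (Dead.rt 96602016 (Dead.br 4 (Dead.rt 79089393 (Dead.br 2 t394
 (Dead.br 4 (Dead.rt 50646512 (Dead.br 4 t395
 t396))
 t397)))
 t398)))
 t399)))
 t400))))
 (Dead.br 1 (Dead.rt 57347918 (Dead.br 5 (Dead.ct 94259559 (Dead.rt 58216301 (Dead.br 5 (Dead.ct 70332396 (Dead.rt 34022058 (Dead.br 4 t401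
 t402)))
 t403)))
 t404))
 (Dead.br 1 (Dead.ct 94431562 (Dead.rt 34489278 (Dead.br 1 t405
 (Dead.br 1 (Dead.ct 70914021 (Dead.rt 76672853 (Dead.br 1 t406
 (Dead.br 3 t407
 t408))))
 (Dead.br 3 (Dead.ct 70914021 (Dead.rt 93972885 (Dead.br 4 t409
 t410)))
 t411)))))
 t412))))))
 (Dead.br 2 (Dead.ct 69742578 (Dead.rt 92310159 (Dead.br 4 (Dead.rt 34669589 (Dead.br 2 (Dead.rt 42732285 (Dead.br 4 (Dead.rt 52711027 (Dead.br 5 (Dead.us 0 (Dead.rt 95840324 (Dead.br 4 (Dead.rt 79720147 (Dead.br 2 (Dead.rt 40708575 (Dead.br 3 t413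
 (Dead.br 3 t414
 (Dead.br 3 (Dead.rt 76926796 (Dead.br 1 t415
 (Dead.br 1 t416
 t417)))
 t418))))
 (Dead.br 4 (Dead.rt 40823280 (Dead.br 5 t419
 t420))
 t421)))
 t422)))
 (Dead.br 4 (Dead.us 1 (Dead.rt 41101851 (Dead.br 4 t423
 (Dead.br 3 t424
 (Dead.br 3 (Dead.rt 35439944 (Dead.br 1 t425
 t426))
 t427)))))
 t428)))
 (Dead.br 3 t429
 (Dead.br 3 (Dead.rt 89132049 (Dead.br 4 t430
 (Dead.br 4 t431
 t432)))
 t433))))
 (Dead.br 1 (Dead.rt 77008713 (Dead.br 2 (Dead.us 0 (Dead.rt 97052472 (Dead.br 4 (Dead.rt 87231693 (Dead.br 2 t434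
 (Dead.br 4 (Dead.rt 43469658 (Dead.br 4 t435
 t436))
 (Dead.br 3 t437
 t438))))
 (Dead.br 4 (Dead.us 0 (Dead.us 0 (Dead.rt 40249749 (Dead.br 5 (Dead.rt 40610255 (Dead.br 5 (Dead.rt 85888322 (Dead.br 5 t439
 t440))
 t441))
 t442))))
 t443))))
 (Dead.br 1 (Dead.us 0 (Dead.rt 89557988 (Dead.br 4 t444
 t445)))
 (Dead.br 3 (Dead.us 1 (Dead.us 2 (Dead.rt 43953043 (Dead.br 4 (Dead.rt 50703860 (Dead.br 4 t446
 t447))
 t448))))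
 t449))))
 (Dead.br 3 t450
 t451))))
 (Dead.br 3 t452
 (Dead.br 3 (Dead.us 1 (Dead.ct 93006380 (Dead.rt 36218429 (Dead.br 5 (Dead.rt 94841089 (Dead.br 4 t453
 t454))
 t455))))
 (Dead.br 1 (Dead.us 2 (Dead.rt 56389416 (Dead.br 5 (Dead.us 2 (Dead.rt 55684874 (Dead.br 5 (Dead.rt 96741249 (Dead.br 4 (Dead.rt 79261417 (Dead.br 5 t456
 t457))
 t458))
 t459)))
 t460)))
 (Dead.br 1 t461
 t462)))))))
 t463))))
 (Dead.br 2 (Dead.ct 95094996 (Dead.rt 34292566 (Dead.br 1 t464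
 (Dead.br 3 t465
 (Dead.br 3 t466
 t467)))))
 (Dead.br 2 t468
 (Dead.br 1 (Dead.ct 94087555 (Dead.rt 79130351 (Dead.br 2 (Dead.rt 34767937 (Dead.br 2 t469
 t470))
 (Dead.br 1 t471
 (Dead.br 3 (Dead.rt 94136698 (Dead.br 4 t472
 t473))
 t474)))))
 t475))))))))
 (Dead.br 4 (Dead.us 4 (Dead.ct 92629603 (Dead.ct 100409842 (Dead.ct 100581661 (Dead.rt 79982278 (Dead.br 5 (Dead.ct 89779147 (Dead.rt 34079440 (Dead.br 1 t476
 (Dead.br 4 (Dead.ct 99280010 (Dead.rt 36267597 (Dead.br 5 (Dead.rt 92719702 (Dead.br 4 t477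
 (Dead.br 4 t478
 t479)))
 t480)))
 (Dead.br 1 (Dead.rt 93497825 (Dead.br 4 (Dead.rt 70070255 (Dead.br 1 t481
 t482))
 t483))
 t484)))))
 (Dead.br 4 t485
 (Dead.br 2 (Dead.us 1 (Dead.rt 36292179 (Dead.br 5 (Dead.rt 72347597 (Dead.br 1 t486
 (Dead.br 1 t487
 t488)))
 t489)))
 t490))))))))
 (Dead.br 3 (Dead.ct 100614357 (Dead.rt 35464529 (Dead.br 0 t491
 (Dead.br 0 t492
 (Dead.br 2 t493
 t494)))))
 (Dead.br 0 (Dead.us 3 (Dead.us 5 (Dead.rt 39086284 (Dead.br 3 t495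
 (Dead.br 4 (Dead.rt 74796946 (Dead.br 5 (Dead.rt 78098205 (Dead.br 2 (Dead.ct 68866041 (Dead.rt 47607044 (Dead.br 4 t496
 t497)))
 t498))
 (Dead.br 2 (Dead.rt 77442872 (Dead.br 2 (Dead.ct 68866041 (Dead.rt 47557888 (Dead.br 4 t499
 t500)))
 t501))
 t502)))
 (Dead.br 3 t503
 (Dead.br 0 t504
 (Dead.br 0 t505
 t506))))))))
 (Dead.br 1 (Dead.us 7 (Dead.us 3 (Dead.rt 50122187 (Dead.br 3 (Dead.rt 86846703 (Dead.br 2 t507
 (Dead.br 0 (Dead.rt 41839237 (Dead.br 3 t508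
 (Dead.br 3 (Dead.rt 47541502 (Dead.br 3 t509
 t510))
 t511)))
 t512)))
 (Dead.br 3 (Dead.rt 43330377 (Dead.br 3 (Dead.us 4 (Dead.rt 40856054 (Dead.br 5 (Dead.ct 72069074 (Dead.ct 70332396 (Dead.rt 77541172 (Dead.br 2 (Dead.rt 41601636 (Dead.br 4 t513
 t514))
 t515))))
 (Dead.br 0 t516
 (Dead.br 0 t517
 (Dead.br 1 t518
 (Dead.br 1 (Dead.rt 85372268 (Dead.br 5 t519
 (Dead.br 2 t520
 t521)))
 t522)))))))
 (Dead.br 3 (Dead.rt 85732687 (Dead.br 5 (Dead.ct 70332396 (Dead.rt 78294805 (Dead.br 5 t523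
 (Dead.br 2 (Dead.rt 41519704 (Dead.br 3 t524
 (Dead.br 4 t525
 t526)))
 t527))))
 (Dead.br 2 (Dead.rt 42707706 (Dead.br 4 (Dead.rt 77303613 (Dead.br 2 (Dead.rt 94595373 (Dead.br 4 (Dead.ct 69160951 (Dead.rt 42109611 (Dead.br 4 (Dead.rt 41175590 (Dead.br 1 t528
 (Dead.br 4 t529
 (Dead.br 2 t530
 (Dead.br 2 t531
 t532)))))
 t533)))
 t534))
 (Dead.br 4 (Dead.us 0 (Dead.rt 54431439 (Dead.br 5 (Dead.rt 95864894 (Dead.br 4 t535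
 t536))
 t537)))
 t538)))
 t539))
 (Dead.br 0 (Dead.rt 41765500 (Dead.br 3 t540
 t541))
 (Dead.br 0 t542
 t543)))))
 (Dead.br 3 (Dead.ct 73224122 (Dead.rt 80285366 (Dead.br 5 t544
 t545)))
 t546))))
 (Dead.br 1 (Dead.ct 93006380 (Dead.rt 77958947 (Dead.br 1 t547
 t548)))
 (Dead.br 1 (Dead.ct 92817992 (Dead.rt 77680430 (Dead.br 5 t549
 t550)))
 (Dead.br 1 (Dead.rt 78221080 (Dead.br 5 (Dead.rt 33570946 (Dead.br 5 t551
 (Dead.br 4 t552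
 (Dead.br 1 (Dead.rt 93866407 (Dead.br 4 t553
 t554))
 t555))))
 (Dead.br 2 (Dead.us 0 (Dead.rt 94398799 (Dead.br 4 (Dead.ct 100581661 (Dead.rt 75902832 (Dead.br 2 t556
 t557)))
 t558)))
 t559)))
 t560))))))))
 (Dead.br 0 (Dead.us 8 (Dead.us 5 (Dead.rt 78737154 (Dead.br 2 (Dead.rt 38635637 (Dead.br 5 (Dead.rt 42224314 (Dead.br 3 (Dead.rt 39495957 (Dead.br 5 t561
 t562))
 (Dead.br 3 (Dead.rt 75239301 (Dead.br 5 t563
 (Dead.br 2 t564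
 t565)))
 t566)))
 t567))
 (Dead.br 0 t568
 (Dead.br 3 (Dead.us 1 (Dead.rt 94259558 (Dead.br 2 t569
 (Dead.br 1 t570
 (Dead.br 2 (Dead.ct 100483499 (Dead.rt 43821956 (Dead.br 4 (Dead.rt 39258348 (Dead.br 5 (Dead.rt 74444700 (Dead.br 5 t571
 t572))
 t573))
 t574)))
 t575)))))
 t576))))))
 t577)))))))))
 (Dead.br 1 (Dead.ct 89123858 (Dead.us 4 (Dead.ct 73519028 (Dead.ct 70332396 (Dead.rt 48147762 (Dead.br 1 (Dead.ct 93006380 (Dead.rt 96733058 (Dead.br 5 t578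
 t579)))
 (Dead.br 3 t580
 (Dead.br 3 t581
 t582))))))))
 t583))))))

end Pool.Agent.Lib.MP_4662c0_co.A
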